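import Pool.Agent.H433R2.AJT.Asm

/-!
# The Alon-Jaeger-Tarsi conjecture for all primes `p ≥ 11`

For every prime `p ≥ 11`, every nonsingular `n × n` matrix `A` over `𝔽_p` and all forbidden values
`c, c' ∈ 𝔽_p^n` there is a vector `x` with `x i ≠ c i` and `(A x) i ≠ c' i` for every `i`.
(`c = c' = 0` is the conjecture of Jaeger, Alon and Tarsi.)
-/

namespace Pool.Agent.Results.MP_79429d_co.PrimesFromEleven

theorem result : ∀ (p : ℕ) [Fact p.Prime], 11 ≤ p →
    ∀ (n : ℕ) (A : Matrix (Fin n) (Fin n) (ZMod p)), IsUnit A.det →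
      ∀ c c' : Fin n → ZMod p,
        ∃ x : Fin n → ZMod p, (∀ i, x i ≠ c i) ∧ ∀ i, A.mulVec x i ≠ c' i :=
  Pool.H433AJT.f_FINAL

end Pool.Agent.Results.MP_79429d_co.PrimesFromEleven
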